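import Pool.Agent.Helper10.BLD.St
import Pool.Agent.Helper79.HLD.Fr

/-! Row NLZ of the builder: the labels of the whole state (`Nlw`) pass to zooms. A label of the zoom and the box give a
label of the corner. -/

set_option autoImplicit false

namespace Pool.Agent.Helper90.BLD

open Finset Filter Topology Pool.Agent.Helper69.RK Pool.Agent.Helper31.EC Pool.Agent.Helper31.EC.Sp
open Pool.Agent.Helper31.EC.QS Pool.Agent.Helper40.EL Pool.Agent.Helper89.LX Pool.Agent.Helper84.MT
open Pool.Agent.Helper36.AM Pool.Agent.Helper13.AM Pool.Agent.Helper10.BLD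
open Pool.Agent.Helper57.TA (sc wgt)

noncomputable section

/-! ### leaks -/

/-- leaks are smaller at finer conditions -/
theorem nul_leak {S : Sp} {l : Lab S} {A B : Part S} (hl : Nul S (fun k => (l k).leak (A k))) (hAB : PLe A B) :
    Nul S (fun k => (l k).leak (B k)) :=
  (hl.add hAB).of_le (Eventually.of_forall fun _ => FLab.leak_nonneg _ _)
    (Eventually.of_forall fun k => (l k).leak_le_leak (B k) (A k))

section comp

variable {S : Sp} (Z : ∀ k, Setoid (S.F k).Ω) (e : ℝ) (he : 0 < e)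

/-- a label over the base `Z` and the partition `Z` as a label -/
def cmp (l : Lab (S.chg Z e he)) : Lab S := (Lab.ofZ Z).comp e he l

/-- partitions in the space with the base `Z` -/
def pz (A : Part S) : Part (S.chg Z e he) := (Lab.ofZ Z).up e he A

variable {Z e he}

theorem cmp_leak (l : Lab (S.chg Z e he)) (A : Part S) (k : ℕ) :
    (cmp Z e he l k).leak (A k) = h (fc (Z k)) (A k) + (l k).leak (pz Z e he A k) := by
  have h1 := ((Lab.ofZ Z) k).comp_leak e he (l k) (A k)
  rw [Lab.ofZ_leak] at h1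
  exact h1

theorem nul_chg {f : ℕ → ℝ} : Nul (S.chg Z e he) f ↔ Nul S f := (Lab.ofZ Z).nul_over e he

theorem upL_ofZ (x : S.L) : (Lab.ofZ Z).upL e he x = chgL Z e he x := by
  induction x using cl_ind
  rfl

theorem rp_pz (x : S.L) : PLe (rp (chgL Z e he x)) (pz Z e he (rp x)) ∧ PLe (pz Z e he (rp x)) (rp (chgL Z e he x)) := by
  have h1 := (Lab.ofZ Z).rp_upL e he x
  rw [upL_ofZ] at h1
  exact h1

/-- conditions of the composed label -/
theorem cmp_nul {l : Lab (S.chg Z e he)} {x : S.L} (hZ : PLe (fun k => fc (Z k)) (rp x))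
    (hl : Nul (S.chg Z e he) (fun k => (l k).leak (rp (chgL Z e he x) k))) :
    Nul S (fun k => (cmp Z e he l k).leak (rp x k)) := by
  have h1 := nul_chg.mp (nul_leak hl (rp_pz x).1)
  have e1 : (fun k => (cmp Z e he l k).leak (rp x k)) = fun k => h (fc (Z k)) (rp x k) + (l k).leak (pz Z e he (rp x) k) :=
    funext fun k => cmp_leak l (rp x) k
  rw [e1]
  exact Nul.add hZ h1

theorem nul_of_cmp {l : Lab (S.chg Z e he)} {x : S.L} (hl : Nul S (fun k => (cmp Z e he l k).leak (rp x k))) :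
    Nul (S.chg Z e he) (fun k => (l k).leak (rp (chgL Z e he x) k)) := by
  refine nul_leak ?_ (rp_pz x).2
  rw [nul_chg]
  refine hl.of_le (Eventually.of_forall fun _ => FLab.leak_nonneg _ _) (Eventually.of_forall fun k => ?_)
  rw [cmp_leak]
  have := h_nonneg (fc (Z k)) (rp x k)
  linarith

theorem cmp_UB {l : Lab (S.chg Z e he)} (hZ : UB (fun k => H (fc (Z k)) / (S.F k).n))
    (hl : UB (fun k => H ((l k).v) / ((S.chg Z e he).F k).n)) :
    UB (fun k => H ((cmp Z e he l k).v) / (S.F k).n) := by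
  obtain ⟨a, ha⟩ := hZ
  obtain ⟨b, hb⟩ := hl
  refine ⟨a + e * b, ?_⟩
  filter_upwards [ha, hb] with k h1 h2
  have hn := (S.F k).pos
  have hn' : ((S.chg Z e he).F k).n = e * (S.F k).n := rfl
  have hv : H ((cmp Z e he l k).v) ≤ H (fc (Z k)) + H ((l k).v) := by
    have e1 : (cmp Z e he l k).v = (((Lab.ofZ Z) k).cq e he (l k)).map ((Lab.ofZ Z) k).v ⊔
      (fc (l k).V : FL (cmp Z e he l k).T) := rfl
    have e2 : H ((((Lab.ofZ Z) k).cq e he (l k)).map ((Lab.ofZ Z) k).v) = H (fc (Z k)) :=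
      (((Lab.ofZ Z) k).cq e he (l k)).H_map _
    have e3 : H ((l k).v) = h (fc (l k).V : FL (cmp Z e he l k).T)
        ((((Lab.ofZ Z) k).cq e he (l k)).map ((Lab.ofZ Z) k).v) :=
      (((Lab.ofZ Z) k).cr e he (l k)).H_map (fc (l k).V : FL (cmp Z e he l k).T)
    rw [e1, e3, ← e2]
    have h3 : ∀ {L : Type} [PM L] (x y : L), H (x ⊔ y) ≤ H x + Pool.Agent.Helper31.EC.h y x := by
      intro L _ x y
      unfold Pool.Agent.Helper31.EC.h
      rw [sup_comm]
      linarith
    exact h3 _ _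
  rw [abs_le] at h1 h2 ⊢
  have h0 : 0 ≤ H ((cmp Z e he l k).v) / (S.F k).n := div_nonneg (H_nonneg _) hn.le
  have ha0 : 0 ≤ a := by
    have := div_nonneg (H_nonneg (fc (Z k))) hn.le
    linarith [h1.2]
  have hb0 : 0 ≤ b := by
    have := div_nonneg (H_nonneg ((l k).v)) ((S.chg Z e he).F k).pos.le
    linarith [h2.2]
  constructor
  · have := mul_nonneg he.le hb0
    linarith
  · rw [div_le_iff₀ hn]
    have h4 := h1.2
    have h5 := h2.2
    rw [div_le_iff₀ hn] at h4
    rw [hn', div_le_iff₀ (mul_pos he hn)] at h5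
    nlinarith

end comp

/-! ### the zoom -/

section zoom

variable {S : Sp} {d N r : ℕ} {c : CD S d N r} {w : Fin N → ℝ} {z : Fin N} {s e : ℝ} {he : 0 < e} {h1 : e ≤ 1}
  {Z : ∀ k, Setoid (S.F k).Ω} {c' : CD (S.chg Z e he) d N r}

theorem K_le_O (hb : c.Bx w z) (hs : 0 ≤ s) (hs1 : w z * s ≤ 1) : c.K s ≤ c.O :=
  (hb.pt s hs hs1).trans (sup_le_sup (vd_mono _ hs1) (vd_mono _ hs1))

variable (w1 : ∀ j, 1 < w j) (wz : ∀ j, w j ≤ w z) (hb : c.Bx w z) (hs : 0 ≤ s) (hse : w z * s + e ≤ 1)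
  (hz : c.ZR w z s e he h1 Z c')

include w1 wz hb hs hse hz

/-- digits of the height of the zoom -/
theorem zq_le (i : Fin (d + 1)) {a : ℝ} (ha : a ≤ 1) (ha0 : 0 ≤ a) :
    dg (c'.q i) a ≤ chgL Z e he (c.K s ⊔ dg (c.q i) (s + e * a)) := by
  obtain ⟨X, hX, hX'⟩ := hz.q i
  rw [hX', cQ_dg _ _ _ _ _ ha]
  apply chgL_mono
  have h3 := mul_le_mul_of_nonneg_right (w1 z).le hs
  have hea : e * a ≤ e := mul_le_of_le_one_right he.le ha
  have hea0 : 0 ≤ e * a := mul_nonneg he.le ha0
  have hsa : s + e * a ≤ 1 := by linarith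
  have h4 := Pool.Agent.Helper79.HLD.dg_of_sc hs (by linarith : s ≤ s + e * a) hsa X
  rw [add_sub_cancel_left, ← hX] at h4
  refine h4.trans ((dg_sub_le _ _ hsa).trans (sup_le le_sup_right ?_))
  exact ((dg_mono _ hsa).trans (Pool.Agent.Helper79.HLD.q0_le hb s i)).trans le_sup_left

/-- digits of the point of the zoom -/
theorem zO_le : c'.O ≤ chgL Z e he c.O := by
  have hs1 : w z * s ≤ 1 := by linarith
  have hK := K_le_O hb hs hs1
  refine sup_le ?_ ?_
  · rw [vd_le]
    intro i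
    refine (zq_le w1 wz hb hs hse hz i le_rfl zero_le_one).trans (chgL_mono _ _ _ (sup_le hK ?_))
    have h3 := mul_le_mul_of_nonneg_right (w1 z).le hs
    exact ((dg_mono _ (by linarith)).trans (dg_le_vd c.q 1 i)).trans le_sup_left
  · rw [vd_le]
    intro j
    obtain ⟨Y, hY, hY'⟩ := hz.R j
    rw [hY', cQ_dg _ _ _ _ _ le_rfl, mul_one]
    apply chgL_mono
    have hw : 0 ≤ w j * s := mul_nonneg (by linarith [w1 j]) hs
    have hj : w j * s + e ≤ 1 := by
      have := mul_le_mul_of_nonneg_right (wz j) hs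
      linarith
    have h4 := Pool.Agent.Helper79.HLD.dg_of_sc hw (by linarith : w j * s ≤ w j * s + e) hj Y
    rw [add_sub_cancel_left, ← hY] at h4
    refine h4.trans (Pool.Agent.Helper79.HLD.ga_le' hb w1 hs hs1 hK le_sup_left hj j fun l _ => ?_)
    exact ((dg_mono _ hj).trans (dg_le_vd c.R 1 l)).trans le_sup_right

omit w1 wz hs hse in
/-- boxes of the zoom -/
theorem zK_ge {s' : ℝ} (hs' : 0 ≤ s') (hss : w z * (s + e * s') ≤ 1) :
    chgL Z e he (c.K (s + e * s')) ≤ c'.K s' := by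
  have hB : Bdd (S := S.chg Z e he) (c.VK (s + e * s')) := chg_VB Z e he (hb.bdd _)
  have hB' : Bdd (S := S.chg Z e he) (c'.VK s') := by
    refine hB.of_fun (Eventually.of_forall fun k ω ω' a b g q => ?_)
    exact (hz.VK s' hs' hss k ω ω' a b g).mpr q
  show chgL Z e he (io (c.VK (s + e * s'))) ≤ io (c'.VK s')
  rw [chgL_io Z e he (hb.bdd _)]
  apply io_le_of_fun hB'
  refine Eventually.of_forall fun k ω ω' a b g q => ?_
  exact (hz.VK s' hs' hss k ω ω' a b g).mp q

/-- ROW NLZ: labels of zooms -/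
theorem nlw_zoom (hn : Nlw c w z) : Nlw c' w z := by
  intro s' hs' hws l hub hO hX
  have hs1 : w z * s ≤ 1 := by linarith
  have hw0 : 0 < w z := by linarith [w1 z]
  have hss : w z * (s + e * s') < 1 := by
    have h3 : e * (w z * s') < e * 1 := mul_lt_mul_of_pos_left hws he
    nlinarith
  have hs'1 : s' ≤ 1 := by
    have := mul_le_mul_of_nonneg_right (w1 z).le hs'
    linarith
  have hZK : PLe (fun k => fc (Z k)) (rp (c.K s)) := by
    have e1 : (fun k => fc (Z k)) = rpI (hb.bdd s).toInf := by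
      funext k
      rw [hz.base k]
      rfl
    have e2 : c.K s = cl (hb.bdd s).toInf := io_eq _
    rw [e1, e2]
    exact (rp_rpI _).2
  -- the label of the corner
  have hub' : UB (fun k => H ((cmp Z e he l k).v) / (S.F k).n) := by
    refine cmp_UB ?_ hub
    have e1 : (fun k => H (fc (Z k)) / (S.F k).n) = fun k => H (rpI (hb.bdd s).toInf k) / (S.F k).n := by
      funext k
      rw [hz.base k]
      rfl
    rw [e1]
    exact rpI_Bd _
  have hK := K_le_O hb hs hs1
  have c1 : Nul S (fun k => (cmp Z e he l k).leak (rp c.O k)) :=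
    cmp_nul (hZK.trans (PLe_rp.mpr hK)) (nul_leak hO (PLe_rp.mpr (zO_le w1 wz hb hs hse hz)))
  have c2 : ∀ i, Nul S (fun k => (cmp Z e he l k).leak (rp (c.xi i ⊔ dg (c.q 0) (s + e * s')) k)) := by
    intro i
    have hKi : c.K s ≤ c.xi i ⊔ dg (c.q 0) (s + e * s') := by
      refine (hb.xi s hs hs1 i).trans (sup_le_sup_left (dg_mono _ ?_) _)
      have := mul_nonneg he.le hs'
      linarith
    refine cmp_nul (hZK.trans (PLe_rp.mpr hKi)) (nul_leak (hX i) (PLe_rp.mpr (sup_le ?_ ?_)))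
    · exact (hz.xi i).trans (chgL_mono _ _ _ le_sup_left)
    · exact (zq_le w1 wz hb hs hse hz 0 hs'1 hs').trans (chgL_mono _ _ _ (sup_le hKi le_sup_right))
  have c3 := hn (s + e * s') (by have := mul_nonneg he.le hs'; linarith) hss (cmp Z e he l) hub' c1 c2
  exact nul_leak (nul_of_cmp c3) (PLe_rp.mpr (zK_ge hb hz hs' hss.le))

end zoom

end

end Pool.Agent.Helper90.BLD
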