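import Pool.Agent.Helper90.BLD.Nlz
import Pool.Agent.Helper42.NS.Njf

/-! Row LBK of the builder: labels for kernels from labels of the whole state. A variable of an extension is resampled
given finitely many informations of the space; the copy is a label of the whole state. -/

set_option autoImplicit false

namespace Pool.Agent.Helper90.BLD

open Finset Filter Topology Pool.Agent.Helper69.RK Pool.Agent.Helper31.EC Pool.Agent.Helper31.EC.Sp
open Pool.Agent.Helper31.EC.QS Pool.Agent.Helper40.EL Pool.Agent.Helper89.LX Pool.Agent.Helper84.MT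
open Pool.Agent.Helper36.AM Pool.Agent.Helper13.AM Pool.Agent.Helper10.BLD Pool.Agent.Helper52.KP
open Pool.Agent.Helper57.TA (sc wgt)

noncomputable section

/-! ### resampling, finite spaces -/

section fin

variable {F : FSp} (Y V : Setoid F.Ω)

/-- the copy of `V` given `Y` as a label -/
def rsF : FLab F where
  T := (FAm.self F Y).sp
  p := (FAm.self F Y).p1
  hn := rfl
  V := Setoid.comap (FAm.self F Y).p2.π V

theorem rsF_v : (rsF Y V).v = (FAm.self F Y).p2.map (fc V) := rfl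

theorem rsF_H : H ((rsF Y V).v) = H (fc V) := (FAm.self F Y).p2.H_map (fc V)

/-- the leak of the copy at a condition which is a function of `Y` -/
theorem rsF_leak {B : Setoid F.Ω} (hB : ∀ a b, Y a b → B a b) :
    (rsF Y V).leak (fc B) = I (fc V) (fc Y) (fc B) := by
  have ht : (FAm.self F Y).p1.top = (FAm.self F Y).p1.map (fc (⊥ : Setoid F.Ω)) := by
    rw [(FAm.self F Y).p1.map_fc]
    rfl
  have e1 : (rsF Y V).leak (fc B) = I ((FAm.self F Y).p2.map (fc V)) ((FAm.self F Y).p1.top)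
      ((FAm.self F Y).p1.map (fc B)) := rfl
  have e2 : (FAm.self F Y).p1.map (fc Y) ⊔ (FAm.self F Y).p1.top = (FAm.self F Y).p1.top :=
    sup_eq_right.mpr ((FAm.self F Y).p1.map_le_top _)
  have h0 : I ((FAm.self F Y).p2.map (fc V)) ((FAm.self F Y).p1.top)
      ((FAm.self F Y).p1.map (fc Y) ⊔ (FAm.self F Y).p1.map (fc B)) = 0 := by
    have h1 := Pool.Agent.Helper42.NS.self_indep Y (fc (⊥ : Setoid F.Ω)) (fc V)
    rw [← Pool.Agent.Helper42.NS.self_common Y (fun _ _ g => g), ← ht, I_comm] at h1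
    have h2 : (FAm.self F Y).p1.map (fc B) ≤ (FAm.self F Y).p1.map (fc Y) := by
      apply (FAm.self F Y).p1.map_mono
      exact fc_mono fun a b g => hB a b g
    rw [sup_eq_left.mpr h2]
    exact h1
  rw [e1, ← e2, I_chain_right, h0, add_zero, Pool.Agent.Helper42.NS.self_common Y (fun _ _ g => g),
    Pool.Agent.Helper42.NS.self_common Y hB, (FAm.self F Y).p2.I_map]

end fin

/-! ### resampling -/

section sp

variable {T : Sp}

/-- the copy of `V` given `Y` -/
def rs (Y V : ∀ k, Setoid (T.F k).Ω) : Lab T := fun k => rsF (Y k) (V k)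

theorem tend_I (A B C : T.Inf) : Tendsto (fun k => I (fc (A.1 k)) (fc (B.1 k)) (fc (C.1 k)) / (T.F k).n) UF
    (𝓝 (I (cl A) (cl B) (cl C))) := by
  have h1 : I (cl A) (cl B) (cl C) = h (cl A) (cl C) - h (cl A) (cl (Inf.sup B C)) := by
    rw [I_eq, cl_sup]
  have t : ∀ D : T.Inf, Tendsto (fun k => h (fc (A.1 k)) (fc (D.1 k)) / (T.F k).n) UF (𝓝 (h (cl A) (cl D))) := by
    intro D
    have e3 : h (cl A) (cl D) = ul (T.rt A.1 D.1) := h_cl A D
    rw [e3]
    refine (ul_tendsto (UB_rt A _)).congr fun k => ?_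
    rw [h_fc]
    rfl
  rw [h1]
  refine ((t C).sub (t (Inf.sup B C))).congr fun k => ?_
  rw [I_eq, sub_div]
  rfl

/-- finitely many informations in one partition -/
theorem exists_common {ι : Type} [Fintype ι] (B : ι → T.Inf) : ∃ A : T.Inf,
    (∀ i k ω ω', A.1 k ω ω' → (B i).1 k ω ω') ∧ cl A = univ.sup fun i => cl (B i) := by
  classical
  have key : ∀ s : Finset ι, ∃ A : T.Inf, (∀ i ∈ s, ∀ k ω ω', A.1 k ω ω' → (B i).1 k ω ω') ∧
      cl A = s.sup fun i => cl (B i) := by
    intro s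
    induction s using Finset.induction_on with
    | empty =>
      refine ⟨Inf.bot, fun i hi => absurd hi (Finset.notMem_empty i), ?_⟩
      rw [Finset.sup_empty]
      exact cl_bot
    | insert i s hi ih =>
      obtain ⟨A, h1, h2⟩ := ih
      refine ⟨Inf.sup (B i) A, fun j hj k ω ω' g => ?_, ?_⟩
      · rcases Finset.mem_insert.mp hj with e | e
        · rw [e]
          exact g.1
        · exact h1 j e k ω ω' g.2
      · rw [Finset.sup_insert, cl_sup, h2]
  obtain ⟨A, h1, h2⟩ := key univ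
  exact ⟨A, fun i => h1 i (Finset.mem_univ i), h2⟩

/-- the leaks of the copy -/
theorem rs_nul {A V : T.Inf} {b : T.L} (hb : ∀ k ω ω', A.1 k ω ω' → (rpo b).1 k ω ω') :
    Nul T (fun k => (rs A.1 V.1 k).leak (rp b k)) ↔ I (cl V) (cl A) b = 0 := by
  have t := tend_I V A (rpo b)
  rw [cl_rpo] at t
  have e1 : (fun k => I (fc (V.1 k)) (fc (A.1 k)) (fc ((rpo b).1 k)) / (T.F k).n) =
      fun k => (rs A.1 V.1 k).leak (rp b k) / (T.F k).n := by
    funext k
    have h1 := rsF_leak (A.1 k) (V.1 k) (hb k)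
    rw [← h1]
    rfl
  rw [e1] at t
  constructor
  · intro h
    exact tendsto_nhds_unique t h
  · intro h
    rw [h] at t
    exact t

end sp

/-! ### labels -/

section lb

variable {S : Sp} {d N r : ℕ} {c : CD S d N r} {w : Fin N → ℝ} {z : Fin N}

/-- literal form of `nlw` -/
theorem lab_of (hn : Nlw c w z) {s : ℝ} (hs : 0 ≤ s) (hws : w z * s < 1) {X : S.L} (hO : X ≤ c.O)
    (hX : ∀ i, X ≤ c.xi i ⊔ dg (c.q 0) s) : X ≤ c.K s := by
  have e1 : ∀ y : S.L, (fun k => ((Lab.ofZ (rpo X).1) k).leak (rp y k)) = fun k => h (rp X k) (rp y k) := fun y =>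
    funext fun k => Lab.ofZ_leak (rpo X).1 (rp y) k
  have h1 := hn s hs hws (Lab.ofZ (rpo X).1) (rp_Bd X) (by
    rw [e1]
    exact rp_mono hO) fun i => by
    rw [e1]
    exact rp_mono (hX i)
  rw [e1] at h1
  exact PLe_rp.mp h1

theorem pull_O (c : CD S d N r) {T : Sp} (p : Pj T S) : (c.pull p).O = p.map c.O := by
  have h1 : vd (c.pull p).q 1 = p.map (vd c.q 1) := p.qs_vd c.q 1
  have h2 : vd (c.pull p).R 1 = p.map (vd c.R 1) := p.qs_vd c.R 1
  show vd (c.pull p).q 1 ⊔ vd (c.pull p).R 1 = p.map (vd c.q 1 ⊔ vd c.R 1)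
  rw [h1, h2, p.map_sup]

theorem rest_O (c : CD S d N r) (E : ∀ k, (S.F k).Ω → Prop) (hE : 0 < ul (S.pr E)) :
    (c.rest E hE).O = restL E hE c.O := by
  have h1 : vd (c.rest E hE).q 1 = restL E hE (vd c.q 1) := QS.rest_vd E hE c.q 1
  have h2 : vd (c.rest E hE).R 1 = restL E hE (vd c.R 1) := QS.rest_vd E hE c.R 1
  show vd (c.rest E hE).q 1 ⊔ vd (c.rest E hE).R 1 = restL E hE (vd c.q 1 ⊔ vd c.R 1)
  rw [h1, h2, restL_sup]

theorem pull_xi (c : CD S d N r) {T : Sp} (p : Pj T S) (i : Fin r) : (c.pull p).xi i = p.map (c.xi i) := by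
  have h1 : (c.pull p).b i = p.map (c.b i) := (p.map_io (c.bV i)).symm
  have h2 : vd ((c.pull p).cv i) 1 = p.map (vd (c.cv i) 1) := p.qs_vd (c.cv i) 1
  show (c.pull p).b i ⊔ vd ((c.pull p).cv i) 1 = p.map (c.b i ⊔ vd (c.cv i) 1)
  rw [h1, h2, p.map_sup]

theorem rest_xi (hc : ∀ i, Bdd (c.bV i)) (E : ∀ k, (S.F k).Ω → Prop) (hE : 0 < ul (S.pr E)) (i : Fin r) :
    (c.rest E hE).xi i = restL E hE (c.xi i) := by
  have h1 : (c.rest E hE).b i = restL E hE (c.b i) := (restL_io E hE (hc i)).symm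
  have h2 : vd ((c.rest E hE).cv i) 1 = restL E hE (vd (c.cv i) 1) := QS.rest_vd E hE (c.cv i) 1
  show (c.rest E hE).b i ⊔ vd ((c.rest E hE).cv i) 1 = restL E hE (c.b i ⊔ vd (c.cv i) 1)
  rw [h1, h2, restL_sup]

theorem dg_vd1 (f : QS S) (s : ℝ) : dg f s = vd (fun _ : Fin 1 => f) s := by
  apply le_antisymm
  · exact dg_le_vd (fun _ : Fin 1 => f) s 0
  · rw [vd_le]
    exact fun _ => le_rfl

theorem pull_dg {T : Sp} (p : Pj T S) (f : QS S) (s : ℝ) : dg (p.qs f) s = p.map (dg f s) := by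
  rw [dg_vd1, dg_vd1]
  exact p.qs_vd (fun _ : Fin 1 => f) s

theorem rest_dg (E : ∀ k, (S.F k).Ω → Prop) (hE : 0 < ul (S.pr E)) (f : QS S) (s : ℝ) :
    dg (QS.rest E hE f) s = restL E hE (dg f s) := by
  rw [dg_vd1, dg_vd1]
  exact QS.rest_vd E hE (fun _ : Fin 1 => f) s

/-- ROW LBK: the labels of a corner -/
theorem lb_of (hL : ∀ i, Bdd (c.bV i)) (hV : ∀ s, Bdd (c.VK s)) (hn : Nlw c w z)
    (hp : ∀ (W : Sp) (p : Pj W S) (E : ∀ k, (W.F k).Ω → Prop) (hE : 0 < ul (W.pr E)), Nlw ((c.pull p).rest E hE) w z) :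
    c.Lb w z where
  lab := fun s hs hws X hO hX => lab_of hn hs hws hO hX
  nlw := hn
  nlk := by
    intro s hs hws W p E hE V hO hX y
    -- the corner over the event
    have eO : ((c.pull p).rest E hE).O = restL E hE (p.map c.O) := by rw [rest_O, pull_O]
    have hLp : ∀ i, Bdd ((c.pull p).bV i) := fun i => (p.bdd_iff (c.bV i)).mpr (hL i)
    have eX : ∀ i, ((c.pull p).rest E hE).xi i ⊔ dg (((c.pull p).rest E hE).q 0) s =
        restL E hE (p.map (c.xi i ⊔ dg (c.q 0) s)) := by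
      intro i
      have e1 : dg (((c.pull p).rest E hE).q 0) s = restL E hE (p.map (dg (c.q 0) s)) := by
        show dg (QS.rest E hE (p.qs (c.q 0))) s = _
        rw [rest_dg, pull_dg]
      rw [rest_xi hLp, pull_xi, e1, p.map_sup, restL_sup]
    have eK : ((c.pull p).rest E hE).K s = restL E hE (p.map (c.K s)) := by
      have e1 : (c.pull p).K s = p.map (c.K s) := (p.map_io (c.VK s)).symm
      have e2 : ((c.pull p).rest E hE).K s = restL E hE ((c.pull p).K s) :=
        (restL_io E hE ((p.bdd_iff (c.VK s)).mpr (hV s))).symm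
      rw [e2, e1]
    -- the informations
    obtain ⟨b, hb⟩ : ∃ b : Fin r ⊕ Fin 3 → S.L, b = Sum.elim (fun i => c.xi i ⊔ dg (c.q 0) s) ![c.O, c.K s, y] :=
      ⟨_, rfl⟩
    obtain ⟨B, hB⟩ : ∃ B : Fin r ⊕ Fin 3 → (W.rest E).Inf, B = fun j => rpo (restL E hE (p.map (b j))) := ⟨_, rfl⟩
    obtain ⟨A, hA1, hA2⟩ := exists_common B
    have hA3 : cl A = restL E hE (p.map (univ.sup b)) := by
      rw [hA2, p.map_finsup, restL_finsup]
      congr 1
      funext j
      rw [hB, cl_rpo]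
    have hb1 : ∀ j k ω ω', A.1 k ω ω' → (rpo (restL E hE (p.map (b j)))).1 k ω ω' := by
      intro j k ω ω' g
      have h1 := hA1 j k ω ω' g
      rw [hB] at h1
      exact h1
    have hV1 : V = cl (rpo V) := (cl_rpo V).symm
    have key : ∀ j, Nul (W.rest E) (fun k => (rs A.1 (rpo V).1 k).leak (rp (restL E hE (p.map (b j))) k)) ↔
        I V (restL E hE (p.map (univ.sup b))) (restL E hE (p.map (b j))) = 0 := by
      intro j
      have h1 := rs_nul (A := A) (V := rpo V) (hb1 j)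
      rw [hA3, ← hV1] at h1
      exact h1
    have bO : b (Sum.inr 0) = c.O := by rw [hb]; rfl
    have bK : b (Sum.inr 1) = c.K s := by rw [hb]; rfl
    have by' : b (Sum.inr 2) = y := by rw [hb]; rfl
    have bX : ∀ i, b (Sum.inl i) = c.xi i ⊔ dg (c.q 0) s := fun i => by rw [hb]; rfl
    have hub : UB (fun k => H ((rs A.1 (rpo V).1 k).v) / ((W.rest E).F k).n) := by
      have e1 : (fun k => H ((rs A.1 (rpo V).1 k).v) / ((W.rest E).F k).n) =
          fun k => H (rp V k) / ((W.rest E).F k).n := by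
        funext k
        have h1 : H ((rs A.1 (rpo V).1 k).v) = H (rp V k) := rsF_H (A.1 k) ((rpo V).1 k)
        rw [h1]
      rw [e1]
      exact rp_Bd V
    have h1 : Nul (W.rest E) (fun k => (rs A.1 (rpo V).1 k).leak (rp ((c.pull p).rest E hE).O k)) := by
      rw [eO, ← bO, key, bO]
      exact hO _
    have h2 : ∀ i, Nul (W.rest E) (fun k => (rs A.1 (rpo V).1 k).leak
        (rp (((c.pull p).rest E hE).xi i ⊔ dg (((c.pull p).rest E hE).q 0) s) k)) := by
      intro i
      rw [eX, ← bX, key, bX]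
      exact hX i _
    have h3 := hp W p E hE s hs hws (rs A.1 (rpo V).1) hub h1 h2
    rw [eK, ← bK, key, bK] at h3
    apply le_antisymm _ (I_nonneg _ _ _)
    rw [← h3]
    apply Pool.Agent.Helper31.EC.I_mono_right
    refine le_trans ?_ le_sup_left
    apply restL_mono
    apply p.map_mono
    rw [← by']
    exact Finset.le_sup (f := b) (Finset.mem_univ _)

end lb

/-- ROW LBK -/
theorem st_lbk (hA : ST_AXP) : ST_LBK := by
  intro S d N r c w z ρ h0
  refine lb_of h0.ln.bdd h0.bx.bdd h0.nlw fun W p E hE => ?_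
  exact ((hA _ _ _ _ _ _ _ _ ((hA _ _ _ _ _ _ _ _ h0).1 W p)).2 E hE).nlw

end

end Pool.Agent.Helper90.BLD
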