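import Pool.Agent.Helper25.NSB.Blind
import Pool.Agent.Helper46.LIN.Lift

/-! Richness over an information on all events of all extensions, and the coefficients of small linear polynomials in a
rich or real variable. -/

set_option autoImplicit false

namespace Pool.Agent.Helper90.BLD

open Finset Filter Topology Pool.Agent.Helper69.RK Pool.Agent.Helper31.EC

noncomputable section

open Sp QS

variable {S : Sp}

/-- `x` is rich over `C` on all events of all extensions -/
def Rch (x : QS S) (C : S.L) : Prop :=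
  ∀ (T : Sp) (p : Pj T S) (E : ∀ k, (T.F k).Ω → Prop) (hE : 0 < ul (T.pr E)) (r : ℝ), 0 < r → r ≤ 1 →
    0 < h (restL E hE (p.map (dg x r))) (restL E hE (p.map C))

theorem Rch.anti {x : QS S} {C C' : S.L} (hx : Rch x C) (hC : C' ≤ C) : Rch x C' := fun T p E hE r h0 h1 =>
  lt_of_lt_of_le (hx T p E hE r h0 h1) (h_anti (restL_mono E hE (p.map_mono hC)))

theorem Rch.pull {x : QS S} {C : S.L} (hx : Rch x C) {T : Sp} (p : Pj T S) : Rch (p.qs x) (p.map C) := by
  intro T' q E hE r h0 h1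
  have e := hx T' (q.comp p) E hE r h0 h1
  rw [Pj.comp_map, Pj.comp_map] at e
  rw [p.qs_dg]
  exact e

theorem Rch.rest {x : QS S} {C : S.L} (hx : Rch x C) (E : ∀ k, (S.F k).Ω → Prop) (hE : 0 < ul (S.pr E)) :
    Rch (QS.rest E hE x) (restL E hE C) := by
  intro W p E2 hE2 r h0 h1
  have e := hx _ (Helper46.LIN.liftP p) (Helper46.LIN.lE p E2) (Helper46.LIN.lE_pos p E2 hE hE2) r h0 h1
  rw [← Helper46.LIN.l_h p E2 hE hE2] at e
  rw [QS.rest_dg]
  exact e

/-- richness given more information which is independent of the variable -/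
theorem Rch.of_I {x : QS S} {C D : S.L} (hx : Rch x C) (hI : I (dg x 1) D C = 0) : Rch x (D ⊔ C) := by
  intro T p E hE r h0 h1
  have e0 : I (dg x r) D C = 0 := I_zero_mono hI ((dg_mono x h1).trans le_sup_left) le_sup_left
  have e1 := p.I_map (dg x r) D C
  rw [e0] at e1
  have e2 := I_rest_zero E hE e1
  rw [I_zero_iff_h, ← restL_sup, ← p.map_sup] at e2
  rw [e2]
  exact hx T p E hE r h0 h1

/-- THE LEADING COEFFICIENT of a small linear polynomial in a rich variable is small -/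
theorem Rch.coef {c0 c1 x : QS S} {C : S.L} (h0 : dg c0 1 ≤ C) (h1 : dg c1 1 ≤ C) (hx : Rch x C) {d : ℝ}
    (hd : d ≤ 1) (h : c0 + c1 * x ∈ Id S d) : c1 ∈ Id S d := by
  obtain ⟨D, p1, p2, k1, k2, -⟩ := Helper38.NS.exists_copyS ![c0, c1]
  have a0 : p1.qs c0 = p2.qs c0 := k1 0
  have a1 : p1.qs c1 = p2.qs c1 := k1 1
  have hv : vd (![c0, c1] : Fin 2 → QS S) 1 ≤ C := by
    rw [vd_le]
    intro i
    fin_cases i
    · exact h0
    · exact h1
  have hu : IsUnit (p1.qs x - p2.qs x) := by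
    by_contra hc
    obtain ⟨e, he, E, hE, h7⟩ := Helper80.MX.exists_small hc
    have h8 := Id_anti (min_le_left e 1) h7
    rw [map_sub] at h8
    have h9 := dg_eq_of_sub_mem h8 le_rfl (min_le_right e 1)
    have e1 := I_rest_zero E hE (k2 (dg x (min e 1)) (dg x (min e 1)))
    have e2 := (hx.anti hv) D p1 E hE (min e 1) (lt_min he one_pos) (min_le_right e 1)
    have e3 : restL E hE (p1.map (dg x (min e 1))) = restL E hE (p2.map (dg x (min e 1))) := by
      rw [← p1.qs_dg, ← p2.qs_dg, ← QS.rest_dg, ← QS.rest_dg, h9]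
    rw [← e3, I_zero_iff_h, h_zero le_sup_left] at e1
    linarith
  have m1 := Pool.Agent.Helper82.TP.Pj_mem_Id p1 h
  have m2 := Pool.Agent.Helper82.TP.Pj_mem_Id p2 h
  have m3 := (Id D d).sub_mem m1 m2
  have m4 : p1.qs (c0 + c1 * x) - p2.qs (c0 + c1 * x) = (p1.qs x - p2.qs x) * p1.qs c1 := by
    rw [map_add, map_add, map_mul, map_mul, a0, a1]
    ring
  rw [m4] at m3
  exact (p1.qs_mem_Id hd).mp (mem_Id_of_unit_mul hu m3)

/-- the constant coefficient -/
theorem Rch.coef0 {c0 c1 x : QS S} {C : S.L} (h0 : dg c0 1 ≤ C) (h1 : dg c1 1 ≤ C) (hx : Rch x C) {d : ℝ}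
    (hd : d ≤ 1) (h : c0 + c1 * x ∈ Id S d) : c0 ∈ Id S d := by
  have e1 := hx.coef h0 h1 hd h
  have e2 := (Id S d).sub_mem h ((Id S d).mul_mem_right x e1)
  rwa [add_sub_cancel_right] at e2

/-- coefficients of a small linear polynomial in a real variable -/
theorem real_lin {c0 c1 t : QS S} {C : S.L} (h0 : dg c0 1 ≤ C) (h1 : dg c1 1 ≤ C) (ht : h (dg t 1) C = 1) {d : ℝ}
    (hd : d ≤ 1) (hm : c0 + c1 * t ∈ Id S d) : c0 ∈ Id S d ∧ c1 ∈ Id S d := by
  have hv : vd (![c0, c1] : Fin 2 → QS S) 1 ≤ C := by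
    rw [vd_le]
    intro i
    fin_cases i
    · exact h0
    · exact h1
  have e1 : h (dg t 1) (vd (![c0, c1] : Fin 2 → QS S) 1) = 1 :=
    le_antisymm (h_dg_le_one _ _) (ht.ge.trans (h_anti hv))
  have e2 : pe (![c0, c1] : Fin (1 + 1) → QS S) t ∈ Id S d := by
    unfold pe
    rw [Fin.sum_univ_two]
    have e3 : (![c0, c1] : Fin (1 + 1) → QS S) 0 * t ^ ((0 : Fin (1 + 1)) : ℕ) +
      (![c0, c1] : Fin (1 + 1) → QS S) 1 * t ^ ((1 : Fin (1 + 1)) : ℕ) = c0 + c1 * t := by
      show c0 * t ^ 0 + c1 * t ^ 1 = _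
      rw [pow_zero, mul_one, pow_one]
    rw [e3]
    exact hm
  exact ⟨real_zero (![c0, c1] : Fin (1 + 1) → QS S) t e1 hd e2 0,
    real_zero (![c0, c1] : Fin (1 + 1) → QS S) t e1 hd e2 1⟩

end

end Pool.Agent.Helper90.BLD
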